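import Mathlib
import Pool.Agent.H87.Lib.Helper937.Fact

set_option autoImplicit false

open Set Topology Filter

namespace Pool.Agent.Helper937.Dya

open Pool.Agent.Helper937.Fact

/-- pairs of boxes with the same support -/
abbrev Tup (T : Type*) : Type _ := Finset T × (T → BB) × (T → BB)

section main
variable {T S K : Type*} [TopologicalSpace S] [TopologicalSpace K] [CompactSpace K]
  (e : S → T → ℝ) (φ : S → K)

/-- boxes which agree on `A` have images with intersecting closures -/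
def Good {T S K : Type*} [TopologicalSpace K] (e : S → T → ℝ) (φ : S → K) (A : Set T) : Prop :=
  ∀ (G : Finset T) (b c : T → BB), (∀ t ∈ G, t ∈ A → b t = c t) →
      ¬ Disjoint (Cl e φ G b) (Cl e φ G c)

omit [TopologicalSpace S] in
theorem dichotomy (hd : DenseRange e) (hng : ¬ ∃ A : Set T, A.Countable ∧ Good e φ A) :
    ∃ J : Set (Tup T), ¬ J.Countable ∧
      (∀ p ∈ J, Disjoint (Cl e φ p.1 p.2.1) (Cl e φ p.1 p.2.2)) ∧
      ∀ B : Set (Tup T), ∃ k : K, ∀ p ∈ J,
        (p ∈ B → k ∈ Cl e φ p.1 p.2.2) ∧ (p ∉ B → k ∈ Cl e φ p.1 p.2.1) := by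
  classical
  -- families of separated pairs with disjoint difference sets
  let Sep : (Finset T × (T → BB) × (T → BB)) → Prop := fun p => Disjoint (Cl e φ p.1 p.2.1) (Cl e φ p.1 p.2.2)
  let Q : Set (Finset T × (T → BB) × (T → BB)) → Prop := fun J =>
    (∀ p ∈ J, Sep p) ∧ ∀ p ∈ J, ∀ q ∈ J, p ≠ q → ∀ t ∈ p.1, t ∈ q.1 → p.2.1 t ≠ p.2.2 t → q.2.1 t = q.2.2 t
  obtain ⟨J, hJ, hmax⟩ : ∃ J, Maximal Q J := by
    apply zorn_subset
    intro c hc1 hc2
    refine ⟨⋃₀ c, ⟨?_, ?_⟩, fun s hs => subset_sUnion_of_mem hs⟩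
    · rintro p ⟨s, hs, hps⟩
      exact (hc1 hs).1 p hps
    · rintro p ⟨s, hs, hps⟩ q ⟨s', hs', hqs'⟩ hpq
      rcases hc2.total hs hs' with h | h
      · exact (hc1 hs').2 p (h hps) q hqs' hpq
      · exact (hc1 hs).2 p hps q (h hqs') hpq
  have hcon := hng
  simp only [Good] at hcon
  push Not at hcon
  -- J is uncountable
  have hJunc : ¬ J.Countable := by
    intro hJc
    have hAc : (⋃ p ∈ J, {t : T | t ∈ p.1}).Countable :=
      hJc.biUnion fun p _ => (Finset.countable_toSet p.1)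
    obtain ⟨G, b, c, h1, h2⟩ := hcon _ hAc
    have hmem : insert (G, b, c) J ⊆ J := by
      apply hmax (y := insert (G, b, c) J) _ (subset_insert _ _)
      refine ⟨?_, ?_⟩
      · rintro p (rfl | hp)
        · exact h2
        · exact hJ.1 p hp
      · rintro p (rfl | hp) q (rfl | hq) hpq t htp htq hne
        · exact absurd rfl hpq
        · exact absurd (h1 t htp (mem_iUnion₂.mpr ⟨q, hq, htq⟩)) hne
        · exact h1 t htq (mem_iUnion₂.mpr ⟨p, hp, htp⟩)
        · exact hJ.2 p hp q hq hpq t htp htq hne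
    have hin : (G, b, c) ∈ J := hmem (mem_insert _ _)
    have hbc : ∀ t ∈ G, b t = c t := fun t ht' => h1 t ht' (mem_iUnion₂.mpr ⟨_, hin, ht'⟩)
    have hBB : Box G b = Box G c := by
      ext x
      simp only [Box, mem_ofPred_eq]
      constructor
      · intro h t ht'; rw [← hbc t ht']; exact h t ht'
      · intro h t ht'; rw [hbc t ht']; exact h t ht'
    have hne : (e ⁻¹' Box G b).Nonempty := by
      have hx : (Box G b).Nonempty := ⟨fun t => (BB_nonempty (b t)).some, fun t _ => (BB_nonempty (b t)).some_mem⟩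
      obtain ⟨s, hs⟩ := hd.exists_mem_open (Box_open G b) hx
      exact ⟨s, hs⟩
    obtain ⟨s, hs⟩ := hne
    have h3 : φ s ∈ Cl e φ G b := subset_closure ⟨s, hs, rfl⟩
    have h4 : φ s ∈ Cl e φ G c := subset_closure ⟨s, by rw [← hBB]; exact hs, rfl⟩
    exact Set.disjoint_left.mp h2 h3 h4
  -- refine
  obtain ⟨J', R, hJ'J, hJ', hR, hΔ⟩ := delta_system (fun p : (Finset T × (T → BB) × (T → BB)) => p.1) J hJunc
  have hJ1 : ¬ {p ∈ J' | ∀ t ∈ R, p.2.1 t = p.2.2 t}.Countable := by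
    intro hc
    apply hJ'
    have hcov : J' ⊆ {p ∈ J' | ∀ t ∈ R, p.2.1 t = p.2.2 t} ∪ ⋃ t ∈ (R : Set T), {p ∈ J' | p.2.1 t ≠ p.2.2 t} := by
      intro p hp
      by_cases h : ∀ t ∈ R, p.2.1 t = p.2.2 t
      · exact Or.inl ⟨hp, h⟩
      · push Not at h
        obtain ⟨t, htR, hne⟩ := h
        exact Or.inr (mem_iUnion₂.mpr ⟨t, htR, hp, hne⟩)
    refine Countable.mono hcov (hc.union ?_)
    refine (Finset.countable_toSet R).biUnion fun t ht' => ?_
    apply Set.Subsingleton.countable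
    rintro p ⟨hp, hpne⟩ q ⟨hq, hqne⟩
    by_contra hpq
    exact hqne (hJ.2 p (hJ'J hp) q (hJ'J hq) hpq t (hR p hp ht') (hR q hq ht') hpne)
  obtain ⟨β, hβ⟩ := uncountable_fiber (C := (R → BB)) (fun p : (Finset T × (T → BB) × (T → BB)) => fun t : R => p.2.1 t) _ hJ1
  set J2 : Set (Finset T × (T → BB) × (T → BB)) := {i ∈ {p ∈ J' | ∀ t ∈ R, p.2.1 t = p.2.2 t} | (fun t : R => i.2.1 t) = β} with hJ2
  -- consistent choice of points
  have hpt : ∀ B : Set (Finset T × (T → BB) × (T → BB)), ∃ x : T → ℝ, ∀ p ∈ J2, x ∈ Box p.1 (if p ∈ B then p.2.2 else p.2.1) := by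
    intro B
    have hch : ∀ t : T, ∃ y : ℝ, ∀ p ∈ J2, t ∈ p.1 → y ∈ (((if p ∈ B then p.2.2 else p.2.1) t : BB) : Set ℝ) := by
      intro t
      by_cases hex : ∃ p ∈ J2, t ∈ p.1
      · obtain ⟨p, hp, htp⟩ := hex
        refine ⟨(BB_nonempty ((if p ∈ B then p.2.2 else p.2.1) t)).some, ?_⟩
        intro q hq htq
        have hval : (if q ∈ B then q.2.2 else q.2.1) t = (if p ∈ B then p.2.2 else p.2.1) t := by
          by_cases hpq : p = q
          · rw [hpq]
          · have htR : t ∈ R := hΔ p hp.1.1 q hq.1.1 hpq t htp htq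
            have e1 := hp.1.2 t htR
            have e2 := hq.1.2 t htR
            have e3 := congrFun hp.2 ⟨t, htR⟩
            have e4 := congrFun hq.2 ⟨t, htR⟩
            simp only at e3 e4
            split_ifs <;> simp [← e1, ← e2, e3, e4]
        rw [hval]
        exact (BB_nonempty _).some_mem
      · push Not at hex
        exact ⟨0, fun p hp htp => absurd htp (hex p hp)⟩
    choose x hx using hch
    exact ⟨x, fun p hp t ht' => hx t p hp ht'⟩
  -- points k_B
  have hk : ∀ B : Set (Finset T × (T → BB) × (T → BB)), ∃ k : K, ∀ p ∈ J2, k ∈ Cl e φ p.1 (if p ∈ B then p.2.2 else p.2.1) := by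
    intro B
    obtain ⟨x, hx⟩ := hpt B
    have := CompactSpace.iInter_nonempty
      (t := fun p : J2 => Cl e φ p.1.1 (if p.1 ∈ B then p.1.2.2 else p.1.2.1))
      (fun p => isClosed_closure) (by
        intro E
        have hopen : IsOpen (⋂ p ∈ E, Box p.1.1 (if p.1 ∈ B then p.1.2.2 else p.1.2.1)) :=
          isOpen_biInter_finset fun p _ => Box_open _ _
        obtain ⟨s, hs⟩ := hd.exists_mem_open hopen ⟨x, mem_iInter₂.mpr fun p _ => hx p.1 p.2⟩
        refine ⟨φ s, mem_iInter₂.mpr fun p hp => subset_closure ⟨s, ?_, rfl⟩⟩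
        exact mem_iInter₂.mp hs p hp)
    obtain ⟨k, hk⟩ := this
    exact ⟨k, fun p hp => mem_iInter.mp hk ⟨p, hp⟩⟩
  refine ⟨J2, hβ, fun p hp => hJ.1 p (hJ'J hp.1.1), fun B => ?_⟩
  obtain ⟨k, hk⟩ := hk B
  refine ⟨k, fun p hp => ⟨fun hB => ?_, fun hB => ?_⟩⟩
  · simpa only [hB, if_true] using hk p hp
  · simpa only [hB, if_false] using hk p hp


theorem factor_of_good [T2Space K] (he : IsInducing e) (hφ : Continuous φ) (A : Set T)
    (hgood : Good e φ A) : ∀ (s : S) (U : Set K), IsOpen U → φ s ∈ U →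
      ∃ (G : Finset T) (b : T → BB), (G : Set T) ⊆ A ∧ e s ∈ Box G b ∧ ∀ z : S, e z ∈ Box G b → φ z ∈ U := by
  classical
  -- basic neighbourhoods
  have hnb : ∀ (s : S) (O : Set K), IsOpen O → φ s ∈ O → ∃ (G : Finset T) (b : T → BB), e s ∈ Box G b ∧
      φ '' (e ⁻¹' Box G b) ⊆ O := by
    intro s O hO hs
    have h1 : φ ⁻¹' O ∈ 𝓝 s := (hO.preimage hφ).mem_nhds hs
    rw [he.nhds_eq_comap, Filter.mem_comap] at h1
    obtain ⟨V, hV, hVO⟩ := h1
    rw [nhds_pi, Filter.mem_pi] at hV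
    obtain ⟨I, hI, v, hv, hvV⟩ := hV
    have : ∀ t : T, ∃ b : BB, e s t ∈ (b : Set ℝ) ∧ (b : Set ℝ) ⊆ v t := by
      intro t
      obtain ⟨u, hu1, hu2, hu3⟩ := mem_nhds_iff.mp (hv t)
      obtain ⟨b, hb1, hb2⟩ := BB_basis hu2 hu3
      exact ⟨b, hb1, hb2.trans hu1⟩
    choose b hb1 hb2 using this
    refine ⟨hI.toFinset, b, fun t _ => hb1 t, ?_⟩
    rintro _ ⟨z, hz, rfl⟩
    apply hVO
    apply hvV
    intro t ht'
    exact hb2 t (hz t (by simpa using ht'))
  intro s U hU hsU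
  obtain ⟨O, hO, hsO, hOU⟩ : ∃ O, IsOpen O ∧ φ s ∈ O ∧ closure O ⊆ U := by
    obtain ⟨V, hV, hVc, hVU⟩ := exists_mem_nhds_isClosed_subset (hU.mem_nhds hsU)
    obtain ⟨O, hO1, hO2, hO3⟩ := mem_nhds_iff.mp hV
    exact ⟨O, hO2, hO3, (closure_minimal hO1 hVc).trans hVU⟩
  obtain ⟨G, b, hsG, hGO⟩ := hnb s O hO hsO
  refine ⟨G.filter (· ∈ A), b, ?_, fun t ht' => hsG t (Finset.mem_filter.mp ht').1, ?_⟩
  · intro t ht'
    exact (Finset.mem_filter.mp ht').2
  intro z hz
  apply hOU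
  by_contra hzO
  -- separate
  obtain ⟨Q, hQ, hzQ, hQd⟩ : ∃ Q, IsOpen Q ∧ φ z ∈ Q ∧ Disjoint (closure Q) (closure O) := by
    obtain ⟨V, hV, hVc, hVU⟩ := exists_mem_nhds_isClosed_subset
      ((isClosed_closure (s := O)).isOpen_compl.mem_nhds hzO)
    obtain ⟨Q, hQ1, hQ2, hQ3⟩ := mem_nhds_iff.mp hV
    refine ⟨Q, hQ2, hQ3, ?_⟩
    rw [Set.disjoint_left]
    intro k hk1 hk2
    exact hVU (closure_minimal hQ1 hVc hk1) hk2
  obtain ⟨G', b', hzG, hGQ⟩ := hnb z Q hQ hzQ
  have hβ : ∀ t : T, t ∈ A → ∃ β : BB, e z t ∈ (β : Set ℝ) ∧ (t ∈ G → (β : Set ℝ) ⊆ b t) ∧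
      (t ∈ G' → (β : Set ℝ) ⊆ b' t) := by
    intro t htA
    obtain ⟨β, hβ1, hβ2⟩ := BB_basis (x := e z t)
      (U := (if t ∈ G then (b t : Set ℝ) else univ) ∩ (if t ∈ G' then (b' t : Set ℝ) else univ))
      (by
        apply IsOpen.inter
        · split_ifs
          · exact BB_open _
          · exact isOpen_univ
        · split_ifs
          · exact BB_open _
          · exact isOpen_univ) (by
        constructor
        · split_ifs with h
          · exact hz t (Finset.mem_filter.mpr ⟨h, htA⟩)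
          · exact mem_univ _
        · split_ifs with h
          · exact hzG t h
          · exact mem_univ _)
    refine ⟨β, hβ1, fun h x hx => ?_, fun h x hx => ?_⟩
    · have := (hβ2 hx).1
      rwa [if_pos h] at this
    · have := (hβ2 hx).2
      rwa [if_pos h] at this
  let U0 : BB := ⟨univ, Or.inl rfl⟩
  have : Nonempty BB := ⟨U0⟩
  choose! β hβ1 hβ2 hβ3 using hβ
  refine hgood (G ∪ G') (fun t => if t ∈ A then β t else if t ∈ G then b t else U0)
    (fun t => if t ∈ A then β t else if t ∈ G' then b' t else U0) ?_ ?_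
  · intro t _ htA
    simp [htA]
  · refine hQd.symm.mono ?_ ?_
    · apply closure_mono
      refine subset_trans (image_mono ?_) hGO
      intro y hy t htG
      have := hy t (Finset.mem_union_left _ htG)
      by_cases htA : t ∈ A
      · simp only [htA, if_true] at this
        exact hβ2 t htA htG this
      · simpa only [htA, htG, if_true, if_false] using this
    · apply closure_mono
      refine subset_trans (image_mono ?_) hGQ
      intro y hy t htG
      have := hy t (Finset.mem_union_right _ htG)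
      by_cases htA : t ∈ A
      · simp only [htA, if_true] at this
        exact hβ3 t htA htG this
      · simpa only [htA, htG, if_true, if_false] using this

end main

end Pool.Agent.Helper937.Dya
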