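import Mathlib
import Pool.Agent.H87.Lib.Helper937.Dya2

set_option autoImplicit false

open Set Topology Filter Cardinal

namespace Pool.Agent.Helper937.Dya

open Pool.Agent.Helper937.Fact

/-- the continuous real functions on `X` with the topology of pointwise convergence -/
abbrev Cp (X : Type) [TopologicalSpace X] : Type := {g : X → ℝ // Continuous g}

/-- the first uncountable ordinal, as a type -/
abbrev W1 : Type := (Cardinal.aleph 1).ord.ToType

instance : Uncountable W1 := by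
  rw [← Cardinal.aleph0_lt_mk_iff, Cardinal.mk_toType, Cardinal.card_ord]
  exact Cardinal.aleph0_lt_aleph_one

theorem mk_W1 : #W1 = ℵ₁ := by
  rw [Cardinal.mk_toType, Cardinal.card_ord]

theorem countable_W1 (b : W1) : (Set.Iio b).Countable := by
  rw [← Cardinal.le_aleph0_iff_set_countable]
  have h : Cardinal.mk (Set.Iio b) < Cardinal.aleph 1 := Cardinal.mk_Iio_toType_ord_lt b
  apply Order.lt_succ_iff.1
  rw [Cardinal.succ_aleph0]
  exact h

/-- `C` has a countable network for the topology of pointwise convergence on `A` -/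
def ACosmic {X : Type} [TopologicalSpace X] (A : Set X) (C : Set (Cp X)) : Prop :=
  ∃ N : Set (Set (Cp X)), N.Countable ∧ ∀ g ∈ C, ∀ (G : Finset X) (b : X → BB), (G : Set X) ⊆ A →
    g.1 ∈ Box G b → ∃ n ∈ N, g ∈ n ∧ ∀ h ∈ n, h.1 ∈ Box G b

theorem ACosmic.mono {X : Type} [TopologicalSpace X] {A A' : Set X} (hA : A ⊆ A') {C : Set (Cp X)}
    (h : ACosmic A' C) : ACosmic A C := by
  obtain ⟨N, hN, h⟩ := h
  exact ⟨N, hN, fun g hg G b hG => h g hg G b (hG.trans hA)⟩

/-- density of the continuous functions in the power of the line -/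
theorem denseRange_Cp (X : Type) [TopologicalSpace X] [CompactSpace X] [T2Space X] :
    DenseRange (fun f : Cp X => f.1) := by
  classical
  intro x
  rw [mem_closure_iff_nhds]
  intro U hU
  rw [nhds_pi, Filter.mem_pi] at hU
  obtain ⟨J, hJ, v, hv, hvU⟩ := hU
  have hex : ∀ t ∈ hJ.toFinset, ∃ f : C(X, ℝ), f t = 1 ∧ ∀ s ∈ hJ.toFinset, s ≠ t → f s = 0 := by
    intro t _
    have hd : Disjoint ((hJ.toFinset.erase t : Finset X) : Set X) {t} := by
      rw [Set.disjoint_singleton_right]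
      simp
    obtain ⟨f, h1, h2, _⟩ := exists_continuous_zero_one_of_isClosed
      (Finset.isClosed _) (isClosed_singleton (x := t)) hd
    refine ⟨f, h2 (mem_singleton t), fun s hs hst => ?_⟩
    exact h1 (Finset.mem_coe.mpr (Finset.mem_erase.mpr ⟨hst, hs⟩))
  choose! f hf1 hf2 using hex
  refine ⟨fun y => ∑ t ∈ hJ.toFinset, x t * f t y, hvU fun s hs => ?_, ⟨⟨_, ?_⟩, rfl⟩⟩
  · have hs' : s ∈ hJ.toFinset := by simpa using hs
    have : ∑ t ∈ hJ.toFinset, x t * f t s = x s := by
      rw [Finset.sum_eq_single s]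
      · rw [hf1 s hs', mul_one]
      · intro t ht hts
        rw [hf2 t ht s hs' (Ne.symm hts), mul_zero]
      · intro h; exact absurd hs' h
    simp only [this]
    exact mem_of_mem_nhds (hv s)
  · exact continuous_finset_sum _ fun t _ => continuous_const.mul (f t).continuous

/-- the main criterion -/
theorem main_cover (X : Type) [TopologicalSpace X] [CompactSpace X] [T2Space X]
    (hX : ∀ A : Set X, #A ≤ ℵ₁ → ∃ C : W1 → Set (Cp X), (⋃ α, C α) = Set.univ ∧ ∀ α, ACosmic A (C α))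
    (Y : Type) [TopologicalSpace Y] [CompactSpace Y] [T2Space Y] (φ : Cp X → Y)
    (hφ : Continuous φ) (hs : Function.Surjective φ) : TopologicalSpace.MetrizableSpace Y := by
  classical
  let e : Cp X → X → ℝ := fun f => f.1
  have hd : DenseRange e := denseRange_Cp X
  have he : IsInducing e := IsInducing.subtypeVal
  by_cases hg : ∃ A : Set X, A.Countable ∧ Good e φ A
  · obtain ⟨A, hA, hgood⟩ := hg
    exact metrizable_of_good e φ he hφ hs A hA hgood
  exfalso
  obtain ⟨J, hJ, hsep, hpat⟩ := dichotomy e φ hd hg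
  -- Urysohn functions
  have hur : ∀ p ∈ J, ∃ (f : C(Y, ℝ)) (A : Set X), A.Countable ∧
      EqOn f 0 (Cl e φ p.1 p.2.1) ∧ EqOn f 1 (Cl e φ p.1 p.2.2) ∧
      ∀ (s : Cp X) (U : Set ℝ), IsOpen U → f (φ s) ∈ U →
        ∃ (G : Finset X) (b : X → BB), (G : Set X) ⊆ A ∧ e s ∈ Box G b ∧
          ∀ z : Cp X, e z ∈ Box G b → f (φ z) ∈ U := by
    intro p hp
    obtain ⟨f, h1, h2, h3⟩ := exists_continuous_zero_one_of_isClosed
      (s := Cl e φ p.1 p.2.1) (t := Cl e φ p.1 p.2.2) isClosed_closure isClosed_closure (hsep p hp)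
    have hK : CTight (Set.Icc (0:ℝ) 1) := by
      intro A x hx
      obtain ⟨s, hs, hs2⟩ := mem_closure_iff_seq_limit.mp hx
      refine ⟨range s, range_subset_iff.mpr hs, countable_range s, ?_⟩
      exact mem_closure_of_tendsto hs2 (Filter.Eventually.of_forall fun n => mem_range_self n)
    let ψ : Cp X → Set.Icc (0:ℝ) 1 := fun s => ⟨f (φ s), h3 (φ s)⟩
    have hψ : Continuous ψ := (f.continuous.comp hφ).subtype_mk _
    obtain ⟨A, hA, hfac⟩ := factor e ψ he hd hK hψ
    refine ⟨f, A, hA, h1, h2, fun s U hU hsU => ?_⟩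
    obtain ⟨G, b, hG, hb, himg⟩ := hfac s (Subtype.val ⁻¹' U) (hU.preimage continuous_subtype_val) hsU
    exact ⟨G, b, hG, hb, fun z hz => himg z hz⟩
  choose! f A hAc hf0 hf1 hfac using hur
  -- a square of size aleph_1 inside J
  have hcard : #(W1 × W1) ≤ #J := by
    rw [Cardinal.mk_prod, Cardinal.lift_id, mk_W1,
      Cardinal.mul_eq_self (Cardinal.aleph0_le_aleph 1)]
    have : ℵ₀ < #J := by
      rw [← not_le, Cardinal.le_aleph0_iff_set_countable]
      exact hJ
    rw [← Cardinal.succ_aleph0]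
    exact Order.succ_le_of_lt this
  obtain ⟨q⟩ : Nonempty (W1 × W1 ↪ J) := hcard
  let A' : Set X := ⋃ w : W1 × W1, A (q w).1
  have hA' : #A' ≤ ℵ₁ := by
    refine (Cardinal.mk_iUnion_le_sum_mk).trans ?_
    refine (Cardinal.sum_le_sum _ (fun _ => ℵ₀) (fun w =>
      Cardinal.le_aleph0_iff_set_countable.mpr (hAc _ (q w).2))).trans ?_
    rw [Cardinal.sum_const', Cardinal.mk_prod, Cardinal.lift_id, mk_W1,
      Cardinal.mul_eq_self (Cardinal.aleph0_le_aleph 1)]
    exact (mul_le_mul' le_rfl Cardinal.aleph0_lt_aleph_one.le).trans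
      (Cardinal.mul_eq_self (Cardinal.aleph0_le_aleph 1)).le
  obtain ⟨C, hC, hCc⟩ := hX A' hA'
  -- for each α, a pattern omitted by C α
  have hom : ∀ α : W1, ∃ B : Set W1, ∀ g ∈ C α, ¬ ∀ j : W1,
      (j ∈ B → φ g ∈ Cl e φ (q (α, j)).1.1 (q (α, j)).1.2.2) ∧
      (j ∉ B → φ g ∈ Cl e φ (q (α, j)).1.1 (q (α, j)).1.2.1) := by
    intro α
    by_contra hcon
    push Not at hcon
    choose g hgC hg1 hg2 using fun i : W1 => hcon {i}
    obtain ⟨N, hN, hnet⟩ := hCc α
    have hn : ∀ i : W1, ∃ n ∈ N, g i ∈ n ∧ ∀ h ∈ n, f (q (α, i)).1 (φ h) ∈ Ioi (1/2 : ℝ) := by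
      intro i
      have h1 : f (q (α, i)).1 (φ (g i)) = 1 :=
        hf1 _ (q (α, i)).2 ((hg1 i i) (mem_singleton i))
      obtain ⟨G, b, hG, hb, himg⟩ := hfac _ (q (α, i)).2 (g i) (Ioi (1/2 : ℝ)) isOpen_Ioi
        (by rw [h1]; simp only [mem_Ioi]; norm_num)
      obtain ⟨n, hn, hgn, hnb⟩ := hnet (g i) (hgC i) G b
        (hG.trans (subset_iUnion (fun w : W1 × W1 => A (q w).1) (α, i))) hb
      exact ⟨n, hn, hgn, fun h hh => himg h (hnb h hh)⟩
    choose n hnN hgn hnf using hn
    have hinj : Function.Injective n := by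
      intro i j hij
      by_contra hne
      have h1 : f (q (α, i)).1 (φ (g j)) ∈ Ioi (1/2 : ℝ) := hnf i (g j) (by rw [hij]; exact hgn j)
      have h2 : f (q (α, i)).1 (φ (g j)) = 0 :=
        hf0 _ (q (α, i)).2 ((hg2 j i) (by simpa using hne))
      rw [h2] at h1
      simp only [mem_Ioi] at h1
      norm_num at h1
    have : (range n).Countable := hN.mono (range_subset_iff.mpr hnN)
    have h3 : Countable W1 := by
      have : Countable (range n) := this.to_subtype
      exact (Set.rangeFactorization_injective.mpr hinj).countable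
    exact not_countable (α := W1) h3
  choose B hB using hom
  let BB' : Set (Tup X) := {p | ∃ α j, j ∈ B α ∧ p = (q (α, j)).1}
  obtain ⟨k, hk⟩ := hpat BB'
  obtain ⟨g, rfl⟩ := hs k
  have hgu : g ∈ ⋃ α, C α := by rw [hC]; exact mem_univ g
  obtain ⟨α, hα⟩ := mem_iUnion.mp hgu
  refine hB α g hα fun j => ⟨fun hj => ?_, fun hj => ?_⟩
  · exact (hk _ (q (α, j)).2).1 ⟨α, j, hj, rfl⟩
  · refine (hk _ (q (α, j)).2).2 ?_
    rintro ⟨α', j', hj', heq⟩
    have h1 := q.injective (Subtype.ext heq)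
    rw [Prod.mk.injEq] at h1
    obtain ⟨h1, h2⟩ := h1
    subst h1; subst h2
    exact hj hj'

end Pool.Agent.Helper937.Dya
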