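import Mathlib
import Pool.Agent.H87.Lib.Helper937.Dya7

set_option autoImplicit false

open Set Topology Filter Cardinal

namespace Pool.Agent.Helper937.Dya

open Pool.Agent.Helper937.Fact

theorem cover_lots2 {X : Type} [LinearOrder X] [TopologicalSpace X] [OrderTopology X]
    [CompactSpace X] (A : Set X) (hA : #A ≤ ℵ₁) (hJ : #(JJ A) ≤ ℵ₁) :
    ∃ C : W1 → Set (Cp X), (⋃ α, C α) = Set.univ ∧ ∀ α, ACosmic A (C α) := by
  classical
  have hB := card_Big A hA hJ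
  have hI : #(Big A × Big A) ≤ ℵ₁ := by
    rw [Cardinal.mk_prod, Cardinal.lift_id]
    exact (mul_le_mul' hB hB).trans (Cardinal.mul_eq_self (Cardinal.aleph0_le_aleph 1)).le
  refine cover_of_families' A (Big A × Big A) hI (fun p => Set.Icc p.1.1 p.2.1) fun g => ?_
  -- neighbourhoods
  have h1 : ∀ (n : ℕ) (y : X), ∃ u v : X, Set.Icc u v ∈ 𝓝 y ∧
      (∀ z ∈ Set.Icc u v, |g.1 z - g.1 y| < 1 / (n + 1 : ℝ) / 2) ∧
      CofCtb (Big A ∩ Set.Icc u v) ∧ CoiCtb (Big A ∩ Set.Icc u v) := by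
    intro n y
    have hopen : {z : X | |g.1 z - g.1 y| < 1 / (n + 1 : ℝ) / 2} ∈ 𝓝 y := by
      refine (isOpen_lt ((g.2.sub continuous_const).abs) continuous_const).mem_nhds ?_
      show |g.1 y - g.1 y| < 1 / (n + 1 : ℝ) / 2
      rw [sub_self, abs_zero]; positivity
    obtain ⟨u, v, -, h2, h3⟩ := exists_Icc_mem_subset_of_mem_nhds hopen
    obtain ⟨v', hv1, hv2, hv3⟩ := extend_right A g.1 g.2 u v y _ (fun z hz => h3 hz)
    obtain ⟨u', hu1, hu2, hu3, hu4⟩ := extend_left A g.1 g.2 u v' y _ hv2 hv3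
    exact ⟨u', v', Filter.mem_of_superset h2 (Set.Icc_subset_Icc hu1 hv1), hu2, hu3, hu4⟩
  choose u v huv hosc hcof hcoi using h1
  have h2 : ∀ n : ℕ, ∃ t : Finset X, ⋃ x ∈ t, Set.Icc (u n x) (v n x) = ⊤ := fun n =>
    CompactSpace.elim_nhds_subcover _ fun x => huv n x
  choose t ht using h2
  choose S hSP hSc hS using hcof
  choose R hRP hRc hR using hcoi
  refine ⟨⋃ n : ℕ, ⋃ y ∈ t n, {p : Big A × Big A | p.1.1 ∈ R n y ∧ p.2.1 ∈ S n y}, ?_, ?_⟩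
  · refine countable_iUnion fun n => ?_
    refine (Finset.countable_toSet (t n)).biUnion fun y _ => ?_
    have hc : {p : Big A × Big A | p.1.1 ∈ R n y ∧ p.2.1 ∈ S n y} =
        (Subtype.val ⁻¹' (R n y)) ×ˢ (Subtype.val ⁻¹' (S n y)) := by
      ext p; rfl
    rw [hc]
    exact ((hRc n y).preimage Subtype.val_injective).prod ((hSc n y).preimage Subtype.val_injective)
  · intro x hx ε hε
    obtain ⟨n, hn⟩ := exists_nat_one_div_lt hε
    have hx' : x ∈ ⋃ y ∈ t n, Set.Icc (u n y) (v n y) := by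
      rw [ht n]; trivial
    simp only [mem_iUnion, exists_prop] at hx'
    obtain ⟨y, hy, hxy⟩ := hx'
    obtain ⟨a, haR, hax⟩ := hR n y x ⟨subset_Big A hx, hxy⟩
    obtain ⟨b, hbS, hxb⟩ := hS n y x ⟨subset_Big A hx, hxy⟩
    have haA := hRP n y haR
    have hbA := hSP n y hbS
    refine ⟨(⟨a, haA.1⟩, ⟨b, hbA.1⟩), mem_iUnion.mpr ⟨n, mem_iUnion₂.mpr ⟨y, hy, haR, hbS⟩⟩,
      ⟨hax, hxb⟩, ?_⟩
    intro z hz
    have hz' : z ∈ Set.Icc (u n y) (v n y) := ⟨haA.2.1.trans hz.1, hz.2.trans hbA.2.2⟩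
    have e1 := hosc n y z hz'
    have e2 := hosc n y x hxy
    have e3 : |g.1 z - g.1 x| ≤ |g.1 z - g.1 y| + |g.1 x - g.1 y| := by
      have : g.1 z - g.1 x = (g.1 z - g.1 y) - (g.1 x - g.1 y) := by ring
      rw [this]
      exact abs_sub _ _
    calc |g.1 z - g.1 x| ≤ |g.1 z - g.1 y| + |g.1 x - g.1 y| := e3
      _ < 1 / (n + 1 : ℝ) / 2 + 1 / (n + 1 : ℝ) / 2 := add_lt_add e1 e2
      _ = 1 / (n + 1 : ℝ) := by ring
      _ < ε := hn

theorem cofCtb_of_gen {X : Type} [LinearOrder X] [TopologicalSpace X] [OrderTopology X]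
    (A : Set X) (s : X) (h1 : s ∈ closure (A ∩ Iio s)) (h2 : (𝓝[<] s).IsCountablyGenerated) :
    CofCtb (A ∩ Iio s) := by
  obtain ⟨V, hV⟩ := (𝓝[<] s).exists_antitone_basis
  have hch : ∀ n : ℕ, ∃ a ∈ A ∩ Iio s, a ∈ V n := by
    intro n
    have h3 : V n ∈ 𝓝[<] s := hV.1.mem_of_mem trivial
    rw [mem_nhdsWithin_iff_exists_mem_nhds_inter] at h3
    obtain ⟨W, hW, hWV⟩ := h3
    obtain ⟨a, ha1, ha2⟩ := mem_closure_iff_nhds.mp h1 W hW
    exact ⟨a, ha2, hWV ⟨ha1, ha2.2⟩⟩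
  choose a ha1 ha2 using hch
  refine ⟨range a, range_subset_iff.mpr ha1, countable_range a, fun x hx => ?_⟩
  have h4 : Ioi x ∈ 𝓝[<] s := mem_nhdsWithin_of_mem_nhds (Ioi_mem_nhds hx.2)
  obtain ⟨n, -, hn⟩ := hV.1.mem_iff.mp h4
  exact ⟨a n, mem_range_self n, (hn (ha2 n)).le⟩

theorem coiCtb_of_gen {X : Type} [LinearOrder X] [TopologicalSpace X] [OrderTopology X]
    (A : Set X) (s : X) (h1 : s ∈ closure (A ∩ Ioi s)) (h2 : (𝓝[>] s).IsCountablyGenerated) :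
    CoiCtb (A ∩ Ioi s) := by
  obtain ⟨V, hV⟩ := (𝓝[>] s).exists_antitone_basis
  have hch : ∀ n : ℕ, ∃ a ∈ A ∩ Ioi s, a ∈ V n := by
    intro n
    have h3 : V n ∈ 𝓝[>] s := hV.1.mem_of_mem trivial
    rw [mem_nhdsWithin_iff_exists_mem_nhds_inter] at h3
    obtain ⟨W, hW, hWV⟩ := h3
    obtain ⟨a, ha1, ha2⟩ := mem_closure_iff_nhds.mp h1 W hW
    exact ⟨a, ha2, hWV ⟨ha1, ha2.2⟩⟩
  choose a ha1 ha2 using hch
  refine ⟨range a, range_subset_iff.mpr ha1, countable_range a, fun x hx => ?_⟩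
  have h4 : Iio x ∈ 𝓝[>] s := mem_nhdsWithin_of_mem_nhds (Iio_mem_nhds hx.2)
  obtain ⟨n, -, hn⟩ := hV.1.mem_iff.mp h4
  exact ⟨a n, mem_range_self n, (hn (ha2 n)).le⟩

/-- compact linearly ordered spaces over which sets of size at most `ℵ₁` have at most `ℵ₁` gaps
with both sides of uncountable character -/
theorem main_lots2 (X : Type) [LinearOrder X] [TopologicalSpace X] [OrderTopology X]
    [CompactSpace X]
    (hX : ∀ A : Set X, #A ≤ ℵ₁ → #{p : X × X | p.1 < p.2 ∧ Ioo p.1 p.2 ∩ A = ∅ ∧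
      p.1 ∈ closure (A ∩ Iio p.1) ∧ p.2 ∈ closure (A ∩ Ioi p.2) ∧
      ¬ (𝓝[<] p.1).IsCountablyGenerated ∧ ¬ (𝓝[>] p.2).IsCountablyGenerated} ≤ ℵ₁)
    (Y : Type) [TopologicalSpace Y] [CompactSpace Y] [T2Space Y] (φ : Cp X → Y)
    (hφ : Continuous φ) (hs : Function.Surjective φ) : TopologicalSpace.MetrizableSpace Y := by
  refine main_cover X (fun A hA => cover_lots2 A hA ((Cardinal.mk_le_mk_of_subset ?_).trans (hX A hA)))
    Y φ hφ hs
  rintro p ⟨h1, h2, h3, h4, h5, h6, h7, h8⟩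
  exact ⟨h1, h2, h5, h6, fun h => h7 (cofCtb_of_gen A p.1 h5 h), fun h => h8 (coiCtb_of_gen A p.2 h6 h)⟩

/-- one-sided version -/
theorem main_lots3 (X : Type) [LinearOrder X] [TopologicalSpace X] [OrderTopology X]
    [CompactSpace X]
    (hX : #{x : X | ¬ (𝓝[<] x).IsCountablyGenerated} ≤ ℵ₁ ∨
      #{x : X | ¬ (𝓝[>] x).IsCountablyGenerated} ≤ ℵ₁)
    (Y : Type) [TopologicalSpace Y] [CompactSpace Y] [T2Space Y] (φ : Cp X → Y)
    (hφ : Continuous φ) (hs : Function.Surjective φ) : TopologicalSpace.MetrizableSpace Y := by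
  refine main_lots2 X (fun A hA => ?_) Y φ hφ hs
  rcases hX with hX | hX
  · refine le_trans ?_ hX
    refine Cardinal.mk_le_of_injective (f := fun p => ⟨p.1.1, p.2.2.2.2.2.1⟩) ?_
    rintro ⟨⟨s, t⟩, h⟩ ⟨⟨s', t'⟩, h'⟩ heq
    simp only [Subtype.mk.injEq] at heq
    subst heq
    rcases lt_trichotomy t t' with hlt | hlt | hlt
    · exfalso
      obtain ⟨a, ha1, ha2⟩ := mem_closure_iff_nhds.mp h.2.2.2.1 (Iio t') (Iio_mem_nhds hlt)
      have : a ∈ Ioo s t' ∩ A := ⟨⟨h.1.trans ha2.2, ha1⟩, ha2.1⟩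
      rw [h'.2.1] at this
      exact this
    · subst hlt; rfl
    · exfalso
      obtain ⟨a, ha1, ha2⟩ := mem_closure_iff_nhds.mp h'.2.2.2.1 (Iio t) (Iio_mem_nhds hlt)
      have : a ∈ Ioo s t ∩ A := ⟨⟨h'.1.trans ha2.2, ha1⟩, ha2.1⟩
      rw [h.2.1] at this
      exact this
  · refine le_trans ?_ hX
    refine Cardinal.mk_le_of_injective (f := fun p => ⟨p.1.2, p.2.2.2.2.2.2⟩) ?_
    rintro ⟨⟨s, t⟩, h⟩ ⟨⟨s', t'⟩, h'⟩ heq
    simp only [Subtype.mk.injEq] at heq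
    subst heq
    rcases lt_trichotomy s s' with hlt | hlt | hlt
    · exfalso
      obtain ⟨a, ha1, ha2⟩ := mem_closure_iff_nhds.mp h'.2.2.1 (Ioi s) (Ioi_mem_nhds hlt)
      have : a ∈ Ioo s t ∩ A := ⟨⟨ha1, lt_trans ha2.2 h'.1⟩, ha2.1⟩
      rw [h.2.1] at this
      exact this
    · subst hlt; rfl
    · exfalso
      obtain ⟨a, ha1, ha2⟩ := mem_closure_iff_nhds.mp h.2.2.1 (Ioi s') (Ioi_mem_nhds hlt)
      have : a ∈ Ioo s' t ∩ A := ⟨⟨ha1, lt_trans ha2.2 h.1⟩, ha2.1⟩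
      rw [h'.2.1] at this
      exact this

end Pool.Agent.Helper937.Dya
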