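import Mathlib
import Pool.Agent.H87.Lib.Helper937.Dya8

set_option autoImplicit false

open Set Topology Filter Cardinal

namespace Pool.Agent.Helper937.Dya

open Pool.Agent.Helper937.Fact

theorem exists_filtration' {X : Type} (A : Set X) (hA : #A ≤ ℵ₁) : ∃ F : W1 → Set X,
    (∀ α, (F α).Countable) ∧
    (∀ α, F α ⊆ A) ∧ ∀ D ⊆ A, D.Countable → ∃ α, D ⊆ F α := by
  rw [← mk_W1] at hA
  obtain ⟨ι⟩ : Nonempty (A ↪ W1) := hA
  refine ⟨fun α => {x | ∃ h : x ∈ A, ι ⟨x, h⟩ < α}, fun α => ?_, fun α x hx => hx.1, ?_⟩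
  · have : {x | ∃ h : x ∈ A, ι ⟨x, h⟩ < α} ⊆ Subtype.val '' (ι ⁻¹' (Set.Iio α)) := by
      rintro x ⟨h, hx⟩
      exact ⟨⟨x, h⟩, hx, rfl⟩
    exact (((countable_W1 α).preimage ι.injective).image _).mono this
  · intro D hDA hD
    have hc : (ι '' (Subtype.val ⁻¹' D)).Countable :=
      (hD.preimage Subtype.val_injective).image _
    obtain ⟨α, hα⟩ := bounded_of_countable _ hc
    exact ⟨α, fun x hx => ⟨hDA hx, hα _ ⟨⟨x, hDA hx⟩, hx, rfl⟩⟩⟩

theorem exists_finset_cover {F : Type} [TopologicalSpace F] [CompactSpace F] (𝓑 : Set (Set F))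
    (h𝓑 : TopologicalSpace.IsTopologicalBasis 𝓑) (P O : Set F) (hP : IsClosed P) (hO : IsOpen O)
    (hPO : P ⊆ O) : ∃ u : Finset 𝓑, P ⊆ (⋃ b ∈ u, b.1) ∧ (⋃ b ∈ u, b.1) ⊆ O := by
  classical
  have hch : ∀ x : F, ∃ b : Set F, x ∈ P → (b ∈ 𝓑 ∧ x ∈ b ∧ b ⊆ O) := by
    intro x
    by_cases hx : x ∈ P
    · obtain ⟨b, hb1, hb2, hb3⟩ := h𝓑.exists_subset_of_mem_open (hPO hx) hO
      exact ⟨b, fun _ => ⟨hb1, hb2, hb3⟩⟩
    · exact ⟨∅, fun h => absurd h hx⟩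
  choose b hb using hch
  obtain ⟨t, ht1, ht2⟩ := hP.isCompact.elim_nhds_subcover b
    (fun x hx => (h𝓑.isOpen (hb x hx).1).mem_nhds (hb x hx).2.1)
  refine ⟨t.attach.image (fun x => ⟨b x.1, (hb x.1 (ht1 x.1 x.2)).1⟩), ?_, ?_⟩
  · intro x hx
    obtain ⟨y, hy, hxy⟩ := mem_iUnion₂.mp (ht2 hx)
    refine mem_iUnion₂.mpr ⟨⟨b y, (hb y (ht1 y hy)).1⟩, ?_, hxy⟩
    exact Finset.mem_image.mpr ⟨⟨y, hy⟩, Finset.mem_attach _ _, rfl⟩
  · intro x hx
    obtain ⟨c, hc, hxc⟩ := mem_iUnion₂.mp hx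
    obtain ⟨y, _, rfl⟩ := Finset.mem_image.mp hc
    exact (hb y.1 (ht1 y.1 y.2)).2.2 hxc

theorem cover_general {X : Type} [TopologicalSpace X] [CompactSpace X] [T2Space X] (A F : Set X)
    (hA : #A ≤ ℵ₁) (hF : IsClosed F) (𝓑 : Set (Set F))
    (h𝓑 : TopologicalSpace.IsTopologicalBasis 𝓑) (hc : #𝓑 ≤ ℵ₁)
    (hloc : ∀ x ∈ closure A, x ∉ F → ∃ U ∈ 𝓝 x, (U ∩ A).Countable) :
    ∃ C : W1 → Set (Cp X), (⋃ α, C α) = Set.univ ∧ ∀ α, ACosmic A (C α) := by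
  classical
  have hal := Cardinal.aleph0_le_aleph 1
  have hcompF : CompactSpace F := isCompact_iff_compactSpace.mp hF.isCompact
  -- compact subsets of `closure A \ F` meet `A` in a countable set
  have hcpt : ∀ L : Set X, IsClosed L → L ⊆ closure A → Disjoint L F → (L ∩ A).Countable := by
    intro L hL hLA hLF
    choose! U hU1 hU2 using hloc
    obtain ⟨t, ht1, ht2⟩ := hL.isCompact.elim_nhds_subcover U
      (fun x hx => hU1 x (hLA hx) (Set.disjoint_left.mp hLF hx))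
    have : L ∩ A ⊆ ⋃ x ∈ t, (U x ∩ A) := by
      rintro x ⟨hx, hxA⟩
      obtain ⟨y, hy, hxy⟩ := mem_iUnion₂.mp (ht2 hx)
      exact mem_iUnion₂.mpr ⟨y, hy, hxy, hxA⟩
    exact ((Finset.countable_toSet t).biUnion fun x hx =>
      hU2 x (hLA (ht1 x hx)) (Set.disjoint_left.mp hLF (ht1 x hx))).mono this
  let UU : Finset 𝓑 → Set X := fun u => closure (Subtype.val '' (⋃ b ∈ u, b.1))
  have hex : ∀ i : Finset 𝓑 × Finset 𝓑, ∃ f : C(X, ℝ), Disjoint (UU i.1) (UU i.2) →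
      (EqOn f 0 (UU i.1) ∧ EqOn f 1 (UU i.2)) := by
    intro i
    by_cases h : Disjoint (UU i.1) (UU i.2)
    · obtain ⟨f, h1, h2, _⟩ := exists_continuous_zero_one_of_isClosed isClosed_closure
        isClosed_closure h
      exact ⟨f, fun _ => ⟨h1, h2⟩⟩
    · exact ⟨0, fun h' => absurd h' h⟩
  choose e he using hex
  obtain ⟨Fi, hFi1, hFi2, hFi3⟩ := exists_filtration' A hA
  have hFin : #(Finset 𝓑) ≤ ℵ₁ := by
    rcases finite_or_infinite 𝓑 with h | h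
    · exact (Cardinal.mk_le_aleph0 (α := Finset 𝓑)).trans (Cardinal.aleph0_le_aleph 1)
    · rw [Cardinal.mk_finset_of_infinite]; exact hc
  have hI2 : #(Finset 𝓑 × Finset 𝓑) ≤ ℵ₁ := by
    rw [Cardinal.mk_prod, Cardinal.lift_id]
    exact (mul_le_mul' hFin hFin).trans (Cardinal.mul_eq_self hal).le
  have hI4 : #((Finset 𝓑 × Finset 𝓑) × (Finset 𝓑 × Finset 𝓑)) ≤ ℵ₁ := by
    rw [Cardinal.mk_prod, Cardinal.lift_id]
    exact (mul_le_mul' hI2 hI2).trans (Cardinal.mul_eq_self hal).le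
  have hI5 : #(W1 × ((Finset 𝓑 × Finset 𝓑) × (Finset 𝓑 × Finset 𝓑))) ≤ ℵ₁ := by
    rw [Cardinal.mk_prod, Cardinal.lift_id, Cardinal.lift_id, mk_W1]
    exact (mul_le_mul' le_rfl hI4).trans (Cardinal.mul_eq_self hal).le
  have hI : #(A ⊕ (W1 × ((Finset 𝓑 × Finset 𝓑) × (Finset 𝓑 × Finset 𝓑)))) ≤ ℵ₁ := by
    rw [Cardinal.mk_sum, Cardinal.lift_id, Cardinal.lift_id]
    exact Cardinal.add_le_of_le hal hA hI5
  refine cover_of_families' A _ hI (fun w => Sum.elim (fun a => ({a.1} : Set X))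
    (fun p => {z | z ∈ A ∧ z ∉ Fi p.1 ∧ 1/3 ≤ e p.2.1 z ∧ e p.2.2 z ≤ 2/3}) w) fun g => ?_
  -- indices for rational pairs
  have hrs : ∀ q : ℚ × ℚ, ∃ i : Finset 𝓑 × Finset 𝓑, q.1 < q.2 →
      ((∀ x ∈ F, g.1 x ≤ q.1 → e i x = 0) ∧ (∀ x ∈ F, (q.2 : ℝ) ≤ g.1 x → e i x = 1)) := by
    rintro ⟨r, s⟩
    by_cases hlt : r < s
    swap
    · exact ⟨(∅, ∅), fun h => absurd h hlt⟩
    have hlt' : (r : ℝ) < s := by exact_mod_cast hlt
    have hgF : Continuous (fun x : F => g.1 x.1) := g.2.comp continuous_subtype_val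
    obtain ⟨m, hm1, hm2⟩ := exists_between hlt'
    obtain ⟨m1, hm3, hm4⟩ := exists_between hm1
    obtain ⟨m2, hm5, hm6⟩ := exists_between hm2
    obtain ⟨u, hu1, hu2⟩ := exists_finset_cover 𝓑 h𝓑 {x : F | g.1 x.1 ≤ r} {x : F | g.1 x.1 < m1}
      (isClosed_le hgF continuous_const) (isOpen_lt hgF continuous_const)
      (fun x hx => lt_of_le_of_lt (show g.1 x.1 ≤ r from hx) hm3)
    obtain ⟨v, hv1, hv2⟩ := exists_finset_cover 𝓑 h𝓑 {x : F | (s:ℝ) ≤ g.1 x.1} {x : F | m2 < g.1 x.1}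
      (isClosed_le continuous_const hgF) (isOpen_lt continuous_const hgF)
      (fun x hx => lt_of_lt_of_le hm6 (show (s:ℝ) ≤ g.1 x.1 from hx))
    have hcu : UU u ⊆ {x | g.1 x ≤ m1} := closure_minimal
      (by rintro _ ⟨x, hx, rfl⟩
          have h : g.1 x.1 < m1 := hu2 hx
          exact h.le) (isClosed_le g.2 continuous_const)
    have hcv : UU v ⊆ {x | m2 ≤ g.1 x} := closure_minimal
      (by rintro _ ⟨x, hx, rfl⟩
          have h : m2 < g.1 x.1 := hv2 hx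
          exact h.le) (isClosed_le continuous_const g.2)
    have hd : Disjoint (UU u) (UU v) := by
      rw [Set.disjoint_left]
      intro x hx1 hx2
      have h1 : g.1 x ≤ m1 := hcu hx1
      have h2 : m2 ≤ g.1 x := hcv hx2
      linarith
    obtain ⟨h0, h1⟩ := he (u, v) hd
    refine ⟨(u, v), fun _ => ⟨fun x hx hgx => ?_, fun x hx hgx => ?_⟩⟩
    · exact h0 (subset_closure ⟨⟨x, hx⟩, hu1 hgx, rfl⟩)
    · exact h1 (subset_closure ⟨⟨x, hx⟩, hv1 hgx, rfl⟩)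
  choose i hi using hrs
  -- the exceptional sets
  let L1 : ℚ × ℚ → Set X := fun q => {x | x ∈ closure A ∧ g.1 x ≤ q.1 ∧ 1/3 ≤ e (i q) x}
  let L2 : ℚ × ℚ → Set X := fun q => {x | x ∈ closure A ∧ (q.2 : ℝ) ≤ g.1 x ∧ e (i q) x ≤ 2/3}
  have hL1 : ∀ q : ℚ × ℚ, q.1 < q.2 → (L1 q ∩ A).Countable := by
    intro q hq
    refine hcpt _ ?_ (fun x hx => hx.1) ?_
    · exact isClosed_closure.inter ((isClosed_le g.2 continuous_const).inter
        (isClosed_le continuous_const (e (i q)).continuous))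
    · rw [Set.disjoint_left]
      rintro x ⟨_, hx2, hx3⟩ hxF
      rw [(hi q hq).1 x hxF hx2] at hx3
      norm_num at hx3
  have hL2 : ∀ q : ℚ × ℚ, q.1 < q.2 → (L2 q ∩ A).Countable := by
    intro q hq
    refine hcpt _ ?_ (fun x hx => hx.1) ?_
    · exact isClosed_closure.inter ((isClosed_le continuous_const g.2).inter
        (isClosed_le (e (i q)).continuous continuous_const))
    · rw [Set.disjoint_left]
      rintro x ⟨_, hx2, hx3⟩ hxF
      rw [(hi q hq).2 x hxF hx2] at hx3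
      norm_num at hx3
  have hBc : (⋃ q ∈ {q : ℚ × ℚ | q.1 < q.2}, (L1 q ∩ A) ∪ (L2 q ∩ A)).Countable :=
    (Set.to_countable _).biUnion fun q hq => (hL1 q hq).union (hL2 q hq)
  obtain ⟨α, hα⟩ := hFi3 (⋃ q ∈ {q : ℚ × ℚ | q.1 < q.2}, (L1 q ∩ A) ∪ (L2 q ∩ A))
    (by
      intro x hx
      obtain ⟨q, _, hx⟩ := mem_iUnion₂.mp hx
      rcases hx with hx | hx
      · exact hx.2
      · exact hx.2) hBc
  refine ⟨(Sum.inl '' (Subtype.val ⁻¹' (Fi α) : Set A)) ∪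
    (Sum.inr '' (range fun p : (ℚ × ℚ) × (ℚ × ℚ) => (α, (i p.1, i p.2)))), ?_, ?_⟩
  · exact (((hFi1 α).preimage Subtype.val_injective).image _).union ((countable_range _).image _)
  · intro x hx ε hε
    by_cases hxα : x ∈ Fi α
    · refine ⟨Sum.inl ⟨x, hx⟩, Or.inl ⟨⟨x, hx⟩, hxα, rfl⟩, mem_singleton x, ?_⟩
      intro y hy
      have : y = x := hy
      rw [this, sub_self, abs_zero]
      exact hε
    · obtain ⟨s, hs1, hs2⟩ := exists_rat_btwn (show g.1 x - ε < g.1 x by linarith)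
      obtain ⟨r, hr1, hr2⟩ := exists_rat_btwn hs1
      obtain ⟨r', hr1', hr2'⟩ := exists_rat_btwn (show g.1 x < g.1 x + ε by linarith)
      obtain ⟨s', hs1', hs2'⟩ := exists_rat_btwn hr2'
      have hrs : r < s := by exact_mod_cast hr2
      have hrs' : r' < s' := by exact_mod_cast hs1'
      have hout : ∀ z ∈ A, z ∉ Fi α → ∀ q : ℚ × ℚ, q.1 < q.2 → z ∉ L1 q ∧ z ∉ L2 q := by
        intro z hz hzα q hq
        constructor
        · intro h
          exact hzα (hα (mem_iUnion₂.mpr ⟨q, hq, Or.inl ⟨h, hz⟩⟩))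
        · intro h
          exact hzα (hα (mem_iUnion₂.mpr ⟨q, hq, Or.inr ⟨h, hz⟩⟩))
      refine ⟨Sum.inr (α, (i (r, s), i (r', s'))), Or.inr ⟨_, ⟨((r, s), (r', s')), rfl⟩, rfl⟩,
        ⟨hx, hxα, ?_, ?_⟩, ?_⟩
      · by_contra hcon
        push Not at hcon
        refine (hout x hx hxα (r, s) hrs).2 ⟨subset_closure hx, hs2.le, ?_⟩
        have : e (i (r, s)) x < 1/3 := hcon
        linarith
      · by_contra hcon
        push Not at hcon
        refine (hout x hx hxα (r', s') hrs').1 ⟨subset_closure hx, hr1'.le, ?_⟩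
        have : 2/3 < e (i (r', s')) x := hcon
        linarith
      · rintro z ⟨hz1, hz2, hz3, hz4⟩
        have h1 : (r : ℝ) < g.1 z := by
          by_contra hcon
          push Not at hcon
          exact (hout z hz1 hz2 (r, s) hrs).1 ⟨subset_closure hz1, hcon, hz3⟩
        have h2 : g.1 z < (s' : ℝ) := by
          by_contra hcon
          push Not at hcon
          exact (hout z hz1 hz2 (r', s') hrs').2 ⟨subset_closure hz1, hcon, hz4⟩
        rw [abs_lt]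
        constructor <;> linarith

/-- the general positive result -/
theorem main_general (X : Type) [TopologicalSpace X] [CompactSpace X] [T2Space X]
    (hX : ∀ A : Set X, #A ≤ ℵ₁ → ∃ F : Set X, IsClosed F ∧
      (∃ 𝓑 : Set (Set F), TopologicalSpace.IsTopologicalBasis 𝓑 ∧ #𝓑 ≤ ℵ₁) ∧
      ∀ x ∈ closure A, x ∉ F → ∃ U ∈ 𝓝 x, (U ∩ A).Countable)
    (Y : Type) [TopologicalSpace Y] [CompactSpace Y] [T2Space Y] (φ : Cp X → Y)
    (hφ : Continuous φ) (hs : Function.Surjective φ) : TopologicalSpace.MetrizableSpace Y := by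
  refine main_cover X (fun A hA => ?_) Y φ hφ hs
  obtain ⟨F, h1, ⟨𝓑, h2, h3⟩, h4⟩ := hX A hA
  exact cover_general A F hA h1 𝓑 h2 h3 h4

end Pool.Agent.Helper937.Dya
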